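import Mathlib
import Pool.Agent.H652.DL.Main

set_option autoImplicit false

namespace Pool.Agent.Results.MP_a5ef6c_an.Counterexample

/-- The `lam`-approximation property of the normed space `X`: the identity is approximated
uniformly on compact sets by finite-rank operators of norm at most `lam`. -/
def HasAP (X : Type) [NormedAddCommGroup X] [NormedSpace ℝ X] (lam : ℝ) : Prop :=
  ∀ K : Set X, IsCompact K → ∀ ε : ℝ, 0 < ε →
    ∃ u : X →L[ℝ] X, FiniteDimensional ℝ (LinearMap.range (u : X →ₗ[ℝ] X)) ∧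
      ‖u‖ ≤ lam ∧ ∀ x ∈ K, ‖u x - x‖ < ε

/-- The `lam`-approximation property of `(X, N)`, where `N` is an equivalent norm on `X`. -/
def HasAPFor {X : Type} [NormedAddCommGroup X] [NormedSpace ℝ X] (N : Seminorm ℝ X) (lam : ℝ) :
    Prop :=
  ∀ K : Set X, IsCompact K → ∀ ε : ℝ, 0 < ε →
    ∃ u : X →L[ℝ] X, FiniteDimensional ℝ (LinearMap.range (u : X →ₗ[ℝ] X)) ∧
      (∀ x, N (u x) ≤ lam * N x) ∧ ∀ x ∈ K, N (u x - x) < ε

/-- `N` is an equivalent norm on `X` and its dual norm on the dual space is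
`f ↦ ‖f‖ + 4 β dist (f, Γ)`. -/
def IsNormOf {X : Type} [NormedAddCommGroup X] [NormedSpace ℝ X]
    (N : Seminorm ℝ X) (Γ : Submodule ℝ (StrongDual ℝ X)) (β : ℝ) : Prop :=
  (∃ a b : ℝ, 0 < a ∧ ∀ x, a * ‖x‖ ≤ N x ∧ N x ≤ b * ‖x‖) ∧
    ∀ f : StrongDual ℝ X, IsLUB {r : ℝ | ∃ x : X, N x ≤ 1 ∧ r = |f x|}
      (‖f‖ + 4 * β * Metric.infDist f (Γ : Set (StrongDual ℝ X)))

/-- There are `lam ≥ 1` and a real Banach space `E` such that for every finite-dimensional subspace
`Γ` of `E*` and every `β > 0` there is an equivalent norm on `E` whose dual norm is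
`‖f‖ + 4 β dist (f, Γ)`, and `E` with every such norm has the `lam`-approximation property,
although the dual `E*` fails the `lam`-approximation property. -/
theorem result : ∃ (lam : ℝ) (E : Type) (_ : NormedAddCommGroup E) (_ : NormedSpace ℝ E),
    1 ≤ lam ∧ CompleteSpace E ∧
    (∀ Γ : Submodule ℝ (StrongDual ℝ E), FiniteDimensional ℝ Γ → ∀ β : ℝ, 0 < β →
      (∃ N : Seminorm ℝ E, IsNormOf N Γ β) ∧
        ∀ N : Seminorm ℝ E, IsNormOf N Γ β → HasAPFor N lam) ∧
    ¬ HasAP (StrongDual ℝ E) lam :=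
  Pool.Agent.H652.DL.main

end Pool.Agent.Results.MP_a5ef6c_an.Counterexample
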