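import Mathlib
import Pool.Agent.Helper130.DL.Main

set_option autoImplicit false

namespace Pool.Agent.Results.MP_a5ef6c_an.DualLambdaAPNo

open Pool.Agent.Helper130.DL

/-- There are `lam ≥ 1` and a Banach space `E` such that for every finite-dimensional subspace `Γ`
of `E*` and every `β > 0` the space `E`, with the equivalent norm `preN Γ β` whose dual norm is
`dualN Γ β f = ‖f‖ + 4 β dist(f, Γ)`, has the `lam`-approximation property, but `E*` with its
original dual norm fails the `lam`-approximation property. -/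
theorem result : ∃ lam : ℝ, 1 ≤ lam ∧
    ∃ (E : Type) (_ : NormedAddCommGroup E) (_ : NormedSpace ℝ E) (_ : CompleteSpace E),
      (∀ Γ : Submodule ℝ (StrongDual ℝ E), FiniteDimensional ℝ Γ → ∀ β : ℝ, 0 < β →
        ((∃ N : Seminorm ℝ E, ∀ x, N x = preN Γ β x) ∧
          (∀ x, ‖x‖ ≤ (1 + 4 * β) * preN Γ β x ∧ preN Γ β x ≤ ‖x‖) ∧
          (∀ f : StrongDual ℝ E,
            IsLUB {t : ℝ | ∃ x, preN Γ β x ≤ 1 ∧ t = |f x|} (dualN Γ β f))) ∧
        HasLAP E (preN Γ β) lam) ∧
      ¬ HasLAP (StrongDual ℝ E) (fun f => ‖f‖) lam :=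
  main

end Pool.Agent.Results.MP_a5ef6c_an.DualLambdaAPNo
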